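import Pool.Agent.TH706.SD.OneSided
import Pool.Agent.H554R2.NC.Main
import Pool.Agent.W895.LT.Family

/-!
# Nondeterminism on both sides against randomised programs with a stack and `k n` queries

(the function and its simple computations are those of `Pool.Agent.H554R2.NC`)
-/

set_option autoImplicit false
set_option linter.unusedSectionVars false

open Finset

namespace Pool.Agent.TH706.SD

open Pool.Agent.H554R2.Sem Pool.Agent.H554R2.Coin Pool.Agent.H554R2.Lin Pool.Agent.H554R2.Rnd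
open Pool.Agent.H554R2.Qua Pool.Agent.H554R2.NC
open Pool.Agent.W895.LT (Comparison pat_size diag)
open Pool.Agent.W896.PD (PP Act)
open Pool.Agent.TH706.CD (OutIn)

/-- Both `f` and its negation are disjunctions of at most `D` functions computed in one pass with
`2 ^ s` nodes, where `s ^ e ≤ D n`. -/
def BothSides (n e D : ℕ) (f : Pt n → Bool) : Prop :=
  ∃ s : ℕ, s ^ e ≤ D * n ∧ ∀ b : Bool, ∃ (m : ℕ) (q : Fin m → Pt n → Bool), m ≤ D ∧
    (∀ x, f x = b ↔ ∃ j, q j x = true) ∧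
    ∀ j, ∃ (U : BP (Fin n) Bool) (l : List (Fin n)), Fintype.card U.State ≤ 2 ^ s ∧ l.Nodup ∧
      ∀ x : Pt n, U.Comp x l (q j x)

/-- The function `f` is not given by a threshold with a gap and a threshold of at least the `c`-th
part of the number of the programs. -/
def NoGap (n k q c D : ℕ) (f : Pt n → Bool) : Prop :=
  ∀ τ ≤ k * n, ∀ (I : ℕ) (b : ℝ) (P : Fin I → PP (Fin n) Bool) (o : Bool), 0 < b →
    (I : ℝ) ≤ c * b → (∀ ω, Fintype.card (P ω).State ≤ 2 ^ (n / D)) →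
    ∃ x, (f x = false ∧ q * Nat.card {ω // OutIn (P ω) τ o x} < (q + 1) * b) ∨
      (f x = true ∧ b < Nat.card {ω // OutIn (P ω) τ o x})

/-- the weights -/
noncomputable def bet {t : ℕ} (z : Fin (t * t) → Bool) : ℝ := by
  classical
  exact (2 / (t : ℝ)) * ∑ J : Fin t → Fin t, ∑ i, (if zo J i = z then (1 : ℝ) else 0) +
    (t : ℝ) ^ t / 2 ^ t * mu z

theorem sum_bet {t : ℕ} (S : (Fin (t * t) → Bool) → ℝ) : ∑ z, bet z * S z =
    (2 / (t : ℝ)) * ∑ J : Fin t → Fin t, ∑ i, S (zo J i) +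
      (t : ℝ) ^ t / 2 ^ t * ∑ z, mu z * S z := by
  classical
  unfold bet
  simp only [add_mul]
  rw [Finset.sum_add_distrib]
  congr 1
  · simp only [mul_assoc]
    rw [← Finset.mul_sum]
    congr 1
    simp only [Finset.sum_mul, ite_mul, one_mul, zero_mul]
    rw [Finset.sum_comm]
    refine Finset.sum_congr rfl fun J _ => ?_
    rw [Finset.sum_comm]
    refine Finset.sum_congr rfl fun i _ => ?_
    rw [Finset.sum_ite_eq]
    simp
  · rw [Finset.mul_sum]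
    exact Finset.sum_congr rfl fun z _ => by ring

theorem bet_nonneg {t : ℕ} (ht : 32 ≤ t) (z : Fin (t * t) → Bool) : 0 ≤ bet z := by
  classical
  unfold bet
  have h1 := mu_nonneg ht z
  have h2 : 0 ≤ ∑ J : Fin t → Fin t, ∑ i, (if zo J i = z then (1 : ℝ) else 0) :=
    Finset.sum_nonneg fun J _ => Finset.sum_nonneg fun i _ => by split_ifs <;> norm_num
  positivity

theorem cmp_ao {t L : ℕ} (ht : 32 ≤ t) (hL : 32 * L ≤ t * t) [DecidableEq (Fin (t * t) → Bool)] :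
    Comparison L ((univ : Finset (Fin t → Fin t)).image zr) bet := by
  intro U F hU h0 hF
  have h1 := mu_class ht hL F h0 0 le_rfl U hU (fun z z' h => by
    rw [hF z z' h, sub_self, abs_zero])
  rw [Finset.sum_image (fun J _ J' _ h => N11_zr_inj h), sum_bet]
  linarith

/-- the number of trials -/
theorem trials2 (k q : ℕ) (hq : 1 ≤ q) : ∃ ta : ℕ, 1 ≤ ta ∧
    20 * (8 * ((6 * (3 * ta + 1) * (k + 2) : ℕ) : ℝ) ^ 2) + 2 ≤ (1 + 1 / (q : ℝ)) ^ ta := by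
  obtain ⟨ρ, h1, h2⟩ := exists_rho' k 1 10 q hq
  refine ⟨2 * ρ, by omega, ?_⟩
  have h3 : (1 + 1 / (q : ℝ)) ^ ρ ≤ (1 + 1 / (q : ℝ)) ^ (2 * ρ) := by
    apply pow_le_pow_right₀ _ (by omega)
    have : 0 ≤ 1 / (q : ℝ) := by positivity
    linarith
  refine le_trans ?_ (h2.trans h3)
  rw [one_mul]
  have e : 2 * ((1 + 8 * ((6 * (3 * (2 * ρ) + 1) * (k + 2) : ℕ) : ℝ) ^ 2 * ((10 : ℕ) : ℝ)) *
      ((1 : ℕ) : ℝ)) =
    160 * ((6 * (3 * (2 * ρ) + 1) * (k + 2) : ℕ) : ℝ) ^ 2 + 2 := by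
    push_cast
    ring
  rw [e]
  have e2 : 20 * (8 * ((6 * (3 * (2 * ρ) + 1) * (k + 2) : ℕ) : ℝ) ^ 2) + 2 =
    160 * ((6 * (3 * (2 * ρ) + 1) * (k + 2) : ℕ) : ℝ) ^ 2 + 2 := by ring
  rw [e2]

/-- fixed parameters -/
theorem both_core (k e q c : ℕ) (he : 1 ≤ e) (hq : 1 ≤ q) : ∃ D : ℕ, 1 ≤ D ∧ ∀ n ≥ D,
    ∃ f : Pt n → Bool, BothSides n e D f ∧ NoGap n k q c D f := by
  classical
  obtain ⟨ta, hta, hlam⟩ := trials2 k q hq
  obtain ⟨Q, r, N, hQ, hr, hN, hdet⟩ := det_pp k ta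
  obtain ⟨M, hM⟩ : ∃ M : ℕ, M = 8 * (6 * (3 * ta + 1) * (k + 2)) ^ 2 := ⟨_, rfl⟩
  obtain ⟨t, ht⟩ : ∃ t : ℕ, t = 2048 * e * (Q + 4) + c * ta + 40 := ⟨_, rfl⟩
  obtain ⟨L, hL⟩ : ∃ L : ℕ, L = 64 * (e * t) * (Q + 4) := ⟨_, rfl⟩
  have hLt : 32 * L ≤ t * t := by
    have h1 : 2048 * e * (Q + 4) ≤ t := by omega
    calc 32 * L = (2048 * e * (Q + 4)) * t := by rw [hL]; ring
      _ ≤ t * t := Nat.mul_le_mul_right _ h1
  have ht32 : 32 ≤ t := by omega
  obtain ⟨W1, N2, hW1, hcoefs⟩ := coefs_gen (Q + 4) (t * t) (by omega)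
  obtain ⟨N1, C, hN1⟩ := alg_groups (Q + 4) e t W1 (by omega) he (by omega)
  obtain ⟨N4, hN4p, hN4⟩ := err2 k r N (2 * c ^ ta * 2 ^ (t * t)) hN
  obtain ⟨N5, hN5⟩ := exp_large 32768 (by norm_num) (2 ^ (t * t + 2))
  obtain ⟨N6, hN6p, hN6⟩ := err1 (16 * c ^ ta * M * 2 ^ (t * t)) (16384 * Q) (by omega)
  obtain ⟨D, hD⟩ : ∃ D : ℕ, D = 3 ^ e * ((t + 4) ^ e + e ^ e + C) + t ^ t + N + N1 + N2 + N4 +
    N5 + N6 := ⟨_, rfl⟩
  refine ⟨D, by omega, fun n hn => ?_⟩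
  have hn0 : 1 ≤ n := by omega
  obtain ⟨G, π, hG, hWG, hbal, ⟨A0, B0, hdisj, hA0, hB0, hbal0⟩, hblocks⟩ := hN1 n (by omega)
  obtain ⟨h, hker⟩ := hcoefs n (by omega) G hG hWG π
  obtain ⟨s, hs1, hs2⟩ := exists_s e D n he
  refine ⟨ao π h, ⟨s, hs1, ?_⟩, ?_⟩
  · exact two_sides π h (by omega) (by omega)
      (fun T hT z => one_program he hn0 π h hblocks (by omega) hs2 T hT z)
  -- the lower bound
  intro τ hτ I b P o hb hIb hP
  by_contra hcon
  push Not at hcon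
  have hQ2 : ∀ a : ℕ, n ≤ Q * a → n ≤ (Q + 4) * a := fun a ha => ha.trans (by nlinarith)
  obtain ⟨V, hV⟩ : ∃ V : ℝ, V = 2 ^ n / 2 ^ (t * t) := ⟨_, rfl⟩
  have hV0 : 0 < V := by rw [hV]; positivity
  have hpat : ∀ z, 3 / 4 * V ≤ ((Pat π h z).card : ℝ) ∧ ((Pat π h z).card : ℝ) ≤ 5 / 4 * V := by
    intro z
    rw [hV]
    exact pat_size π h A0 B0 hdisj hA0 hB0 hbal0 hker
      ((Nat.le_mul_of_pos_right _ (by omega)).trans (hN5 n (by omega))) z
  obtain ⟨Nf, hNf⟩ : ∃ Nf : Pt n → ℕ, Nf = fun x => Nat.card {ω // OutIn (P ω) τ o x} := ⟨_, rfl⟩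
  have hNf' : ∀ x, Nat.card {ω // OutIn (P ω) τ o x} = Nf x := by intro x; rw [hNf]
  simp only [hNf'] at hcon
  have hNI : ∀ x, (Nf x : ℝ) ≤ I := by
    intro x
    rw [hNf]
    have h1 : Nat.card {ω // OutIn (P ω) τ o x} ≤ Nat.card (Fin I) :=
      Nat.card_le_card_of_injective _ Subtype.val_injective
    rw [Nat.card_eq_fintype_card (α := Fin I), Fintype.card_fin] at h1
    exact_mod_cast h1
  obtain ⟨S, hS⟩ : ∃ S : (Fin (t * t) → Bool) → ℝ, S = fun z =>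
    ∑ x ∈ Pat π h z, (Nf x : ℝ) ^ ta := ⟨_, rfl⟩
  obtain ⟨F, hF⟩ : ∃ F : (Fin ta → Fin I) → Finset (Pt n),
      F = fun ω => univ.filter (fun x => ∀ j, OutIn (P (ω j)) τ o x) := ⟨_, rfl⟩
  have hF1 : ∀ ω x, x ∈ F ω ↔ ∀ j, OutIn (P (ω j)) τ o x := by
    intro ω x
    rw [hF]
    simp only [mem_filter, mem_univ, true_and]
  -- double counting
  have hdc : ∀ z, ∑ ω : Fin ta → Fin I, ((F ω ∩ Pat π h z).card : ℝ) = S z := by
    intro z
    have e1 : ∀ ω : Fin ta → Fin I, ((F ω ∩ Pat π h z).card : ℝ) =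
        ∑ x ∈ Pat π h z, if (∀ j, OutIn (P (ω j)) τ o x) then (1 : ℝ) else 0 := by
      intro ω
      rw [Finset.sum_boole]
      congr 2
      ext x
      rw [mem_inter, hF1, mem_filter, and_comm]
    simp only [e1]
    rw [Finset.sum_comm, hS]
    refine Finset.sum_congr rfl fun x _ => ?_
    rw [Finset.sum_boole]
    have e2 := card_acc (t := ta) (fun ω => OutIn (P ω) τ o x)
    rw [Nat.card_eq_fintype_card, Fintype.card_subtype, hNf'] at e2
    rw [e2]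
    push_cast
    rfl
  have hMr : 8 * ((6 * (3 * ta + 1) * (k + 2) : ℕ) : ℝ) ^ 2 = (M : ℝ) := by
    rw [hM]; push_cast; ring
  rw [hMr] at hlam
  obtain ⟨T0, hT0⟩ : ∃ T0 : ℝ, T0 = (t : ℝ) ^ t := ⟨_, rfl⟩
  have htR : (0 : ℝ) < t := by
    have : 0 < t := by omega
    exact_mod_cast this
  have hT00 : 0 < T0 := by rw [hT0]; positivity
  have hT1 : 1 ≤ T0 := by
    rw [hT0]
    apply one_le_pow₀
    have : 1 ≤ t := by omega
    exact_mod_cast this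
  have hcardJ : ((univ : Finset (Fin t → Fin t)).card : ℝ) = T0 := by
    rw [hT0, Finset.card_univ, Fintype.card_fun, Fintype.card_fin]
    push_cast
    rfl
  have h𝒜 : (((univ : Finset (Fin t → Fin t)).image zr).card : ℝ) = T0 := by
    rw [Finset.card_image_of_injective _ (fun J J' h => N11_zr_inj h)]
    exact hcardJ
  have h2t : (0 : ℝ) < 2 ^ t := by positivity
  have hbet : ∑ z : Fin (t * t) → Bool, bet z ≤ 3 * T0 := by
    have h1 := sum_bet (t := t) (fun _ => (1 : ℝ))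
    simp only [mul_one] at h1
    rw [h1, sum_mu, mul_one, ← hT0, Finset.sum_const, Finset.sum_const, nsmul_eq_mul,
      nsmul_eq_mul, hcardJ, Finset.card_univ, Fintype.card_fin, mul_one]
    have h2 : 2 / (t : ℝ) * (T0 * t) = 2 * T0 := by field_simp
    have h3 : T0 / 2 ^ t ≤ T0 := by
      apply div_le_self hT00.le
      exact one_le_pow₀ (by norm_num)
    linarith
  obtain ⟨E1, hE1⟩ : ∃ E1 : ℝ, E1 = 2 * 2 ^ n / 2 ^ (n / (16384 * Q)) := ⟨_, rfl⟩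
  obtain ⟨E2, hE2⟩ : ∃ E2 : ℝ, E2 = ((((2 ^ (n / D) * (τ + 1)) ^ 2 + 1) ^ r : ℕ) : ℝ) *
    (2 ^ n / 2 ^ (n / N)) := ⟨_, rfl⟩
  have hE10 : 0 ≤ E1 := by rw [hE1]; positivity
  have hE20 : 0 ≤ E2 := by rw [hE2]; positivity
  have hM0 : (0 : ℝ) ≤ M := Nat.cast_nonneg _
  have hone : ∀ ω : Fin ta → Fin I, ∑ J : Fin t → Fin t, ((F ω ∩ Pat π h (zr J)).card : ℝ) ≤
      M * (∑ z, bet z * ((F ω ∩ Pat π h z).card : ℝ)) + (M * (4 * T0 * E1) + E2) := by
    intro ω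
    have h1 := hdet n (by omega) ((univ : Finset (Fin t → Fin t)).image zr) bet
      (bet_nonneg ht32) (cmp_ao ht32 hLt) π h
      (fun A B' h1 h2 h3 => hker A B' h1 (hQ2 _ h2) (hQ2 _ h3))
      (fun A B' h2 h3 => (hbal A B' (hQ2 _ h2) (hQ2 _ h3)).trans hL.symm.le)
      (fun j => P (ω j)) (fun _ => o) τ hτ _ (fun j => hP _) (F ω) (hF1 ω)
    rw [Finset.sum_image (fun J _ J' _ h => N11_zr_inj h), h𝒜, hMr, ← hE1, ← hE2] at h1
    refine h1.trans ?_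
    have h2 : (T0 + ∑ z : Fin (t * t) → Bool, bet z) * E1 ≤ 4 * T0 * E1 :=
      mul_le_mul_of_nonneg_right (by linarith) hE10
    have h3 := mul_le_mul_of_nonneg_left h2 hM0
    rw [mul_add]
    linarith
  have hsum := Finset.sum_le_sum (s := (univ : Finset (Fin ta → Fin I))) (fun ω _ => hone ω)
  rw [Finset.sum_comm, Finset.sum_add_distrib, ← Finset.mul_sum, Finset.sum_const,
    Finset.sum_comm (s := (univ : Finset (Fin ta → Fin I)))] at hsum
  simp only [← Finset.mul_sum, hdc] at hsum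
  rw [sum_bet, Finset.card_univ, Fintype.card_fun, Fintype.card_fin, Fintype.card_fin,
    nsmul_eq_mul] at hsum
  -- the patterns with the value `false`
  obtain ⟨lam, hlam0⟩ : ∃ lam : ℝ, lam = (1 + 1 / (q : ℝ)) ^ ta := ⟨_, rfl⟩
  rw [← hlam0] at hlam
  have hbt : 0 < b ^ ta := by positivity
  have hlow : ∀ J : Fin t → Fin t, 3 / 4 * V * (lam * b ^ ta) ≤ S (zr J) := by
    intro J
    have hq0 : (0 : ℝ) < q := by exact_mod_cast hq
    have h1 : ∀ x ∈ Pat π h (zr J), lam * b ^ ta ≤ (Nf x : ℝ) ^ ta := by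
      intro x hx
      have h2 := (hcon x).1 (ao_zr hx)
      rw [hlam0, ← mul_pow]
      apply pow_le_pow_left₀ (by positivity)
      have e : (q + 1) * b = q * ((1 + 1 / (q : ℝ)) * b) := by field_simp
      rw [e] at h2
      exact le_of_mul_le_mul_left h2 hq0
    have h2 := Finset.card_nsmul_le_sum _ _ _ h1
    rw [nsmul_eq_mul] at h2
    rw [hS]
    have hlamp : 0 ≤ lam := by rw [hlam0]; positivity
    exact (mul_le_mul_of_nonneg_right (hpat _).1 (mul_nonneg hlamp hbt.le)).trans h2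
  have hlow2 : T0 * (3 / 4 * V * (lam * b ^ ta)) ≤ ∑ J : Fin t → Fin t, S (zr J) := by
    have h1 := Finset.card_nsmul_le_sum (univ : Finset (Fin t → Fin t)) _ _ (fun J _ => hlow J)
    rw [nsmul_eq_mul, hcardJ] at h1
    exact h1
  -- the patterns with the value `true`
  have hup : ∀ (J : Fin t → Fin t) (i : Fin t), S (zo J i) ≤ 5 / 4 * V * b ^ ta := by
    intro J i
    have h1 : ∀ x ∈ Pat π h (zo J i), (Nf x : ℝ) ^ ta ≤ b ^ ta := by
      intro x hx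
      exact pow_le_pow_left₀ (Nat.cast_nonneg _) ((hcon x).2 (ao_zo hx)) _
    have h2 := Finset.sum_le_card_nsmul _ _ _ h1
    rw [nsmul_eq_mul] at h2
    rw [hS]
    exact h2.trans (mul_le_mul_of_nonneg_right (hpat _).2 hbt.le)
  have hup2 : 2 / (t : ℝ) * ∑ J : Fin t → Fin t, ∑ i, S (zo J i) ≤
      5 / 2 * (T0 * V * b ^ ta) := by
    have h1 : ∑ J : Fin t → Fin t, ∑ i, S (zo J i) ≤ T0 * (t * (5 / 4 * V * b ^ ta)) := by
      refine (Finset.sum_le_sum fun J _ => Finset.sum_le_sum fun i _ => hup J i).trans ?_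
      rw [Finset.sum_const, Finset.sum_const, nsmul_eq_mul, nsmul_eq_mul, hcardJ,
        Finset.card_univ, Fintype.card_fin]
    have h2 := mul_le_mul_of_nonneg_left h1 (show 0 ≤ 2 / (t : ℝ) by positivity)
    refine h2.trans (le_of_eq ?_)
    field_simp
    ring
  -- all patterns
  have hIt : (I : ℝ) ^ ta ≤ (c : ℝ) ^ ta * b ^ ta := by
    rw [← mul_pow]
    exact pow_le_pow_left₀ (Nat.cast_nonneg _) hIb _
  have hct : (c : ℝ) ^ ta ≤ 2 ^ t := by
    have h1 : c ^ ta ≤ 2 ^ t := by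
      calc c ^ ta ≤ (2 ^ c) ^ ta := Nat.pow_le_pow_left Nat.lt_two_pow_self.le _
        _ = 2 ^ (c * ta) := by rw [← pow_mul]
        _ ≤ 2 ^ t := Nat.pow_le_pow_right (by norm_num) (by omega)
    exact_mod_cast h1
  have hall : ∀ z, S z ≤ 5 / 4 * V * (I : ℝ) ^ ta := by
    intro z
    have h1 : ∀ x ∈ Pat π h z, (Nf x : ℝ) ^ ta ≤ (I : ℝ) ^ ta := fun x _ =>
      pow_le_pow_left₀ (Nat.cast_nonneg _) (hNI x) _
    have h2 := Finset.sum_le_card_nsmul _ _ _ h1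
    rw [nsmul_eq_mul] at h2
    rw [hS]
    exact h2.trans (mul_le_mul_of_nonneg_right (hpat _).2 (by positivity))
  have hall2 : (t : ℝ) ^ t / 2 ^ t * ∑ z, mu z * S z ≤ 5 / 4 * (T0 * V * b ^ ta) := by
    have h1 : ∑ z : Fin (t * t) → Bool, mu z * S z ≤ 5 / 4 * V * (I : ℝ) ^ ta := by
      calc ∑ z : Fin (t * t) → Bool, mu z * S z ≤
            ∑ z : Fin (t * t) → Bool, mu z * (5 / 4 * V * (I : ℝ) ^ ta) :=
            Finset.sum_le_sum fun z _ => mul_le_mul_of_nonneg_left (hall z) (mu_nonneg ht32 z)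
        _ = 5 / 4 * V * (I : ℝ) ^ ta := by rw [← Finset.sum_mul, sum_mu, one_mul]
    rw [← hT0]
    have h2 := mul_le_mul_of_nonneg_left h1 (show 0 ≤ T0 / 2 ^ t by positivity)
    refine h2.trans ?_
    have h3 : (I : ℝ) ^ ta ≤ 2 ^ t * b ^ ta :=
      hIt.trans (mul_le_mul_of_nonneg_right hct hbt.le)
    have h4 := mul_le_mul_of_nonneg_left h3 (show 0 ≤ T0 / 2 ^ t * (5 / 4 * V) by positivity)
    have e : T0 / 2 ^ t * (5 / 4 * V) * (2 ^ t * b ^ ta) = 5 / 4 * (T0 * V * b ^ ta) := by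
      field_simp
    rw [e] at h4
    calc T0 / 2 ^ t * (5 / 4 * V * (I : ℝ) ^ ta) = T0 / 2 ^ t * (5 / 4 * V) * (I : ℝ) ^ ta := by
          ring
      _ ≤ _ := h4
  -- the error terms
  have hF1 : (c : ℝ) ^ ta * (M * (4 * T0 * E1)) ≤ 1 / 2 * (T0 * V) := by
    have h5 := hN6 D (by omega) n (by omega)
    have h6 : (16 * (c : ℝ) ^ ta * M * 2 ^ (t * t)) * 2 ^ (n / D) ≤ 2 ^ (n / (16384 * Q)) := by
      exact_mod_cast h5
    have h7 : (0 : ℝ) < 2 ^ (n / (16384 * Q)) := by positivity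
    have h8 : (16 * (c : ℝ) ^ ta * M * 2 ^ (t * t)) ≤ 2 ^ (n / (16384 * Q)) := by
      refine le_trans (le_mul_of_one_le_right (by positivity) ?_) h6
      exact one_le_pow₀ (by norm_num)
    have h9 : (c : ℝ) ^ ta * (M * (4 * E1)) ≤ 1 / 2 * V := by
      rw [hE1, hV]
      have h10 : (0 : ℝ) < 2 ^ (t * t) := by positivity
      have e : (c : ℝ) ^ ta * (M * (4 * (2 * 2 ^ n / 2 ^ (n / (16384 * Q))))) =
        (16 * (c : ℝ) ^ ta * M * 2 ^ (t * t)) * (1 / 2 * (2 ^ n / 2 ^ (t * t))) /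
          2 ^ (n / (16384 * Q)) := by
        field_simp
        ring
      rw [e, div_le_iff₀ h7, mul_comm (1 / 2 * ((2 : ℝ) ^ n / 2 ^ (t * t)))]
      exact mul_le_mul_of_nonneg_right h8 (by positivity)
    calc (c : ℝ) ^ ta * (M * (4 * T0 * E1)) = T0 * ((c : ℝ) ^ ta * (M * (4 * E1))) := by ring
      _ ≤ T0 * (1 / 2 * V) := mul_le_mul_of_nonneg_left h9 hT00.le
      _ = _ := by ring
  have hF2 : (c : ℝ) ^ ta * E2 ≤ 1 / 2 * (T0 * V) := by
    have h5 := hN4 D (by omega) n (by omega) τ hτ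
    obtain ⟨X, hX⟩ : ∃ X : ℕ, X = ((2 ^ (n / D) * (τ + 1)) ^ 2 + 1) ^ r := ⟨_, rfl⟩
    rw [← hX] at h5 hE2
    have h6 : (X : ℝ) * 2 ^ (n / D) * (2 * (c : ℝ) ^ ta * 2 ^ (t * t)) ≤ 2 ^ (n / N) := by
      exact_mod_cast h5
    have h7 : (0 : ℝ) < 2 ^ (n / N) := by positivity
    have h8 : (X : ℝ) * (2 * (c : ℝ) ^ ta * 2 ^ (t * t)) ≤ 2 ^ (n / N) := by
      refine le_trans ?_ h6
      apply mul_le_mul_of_nonneg_right _ (by positivity)
      refine le_mul_of_one_le_right (Nat.cast_nonneg _) ?_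
      exact one_le_pow₀ (by norm_num)
    have h9 : (c : ℝ) ^ ta * E2 ≤ 1 / 2 * V := by
      rw [hE2, hV]
      have e : (c : ℝ) ^ ta * ((X : ℝ) * (2 ^ n / 2 ^ (n / N))) =
        ((X : ℝ) * (2 * (c : ℝ) ^ ta * 2 ^ (t * t))) * (1 / 2 * (2 ^ n / 2 ^ (t * t))) /
          2 ^ (n / N) := by
        field_simp
      rw [e, div_le_iff₀ h7, mul_comm (1 / 2 * ((2 : ℝ) ^ n / 2 ^ (t * t)))]
      exact mul_le_mul_of_nonneg_right h8 (by positivity)
    have h10 : V ≤ T0 * V := le_mul_of_one_le_left hV0.le hT1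
    linarith
  have herr : ((I ^ ta : ℕ) : ℝ) * (M * (4 * T0 * E1) + E2) ≤ T0 * V * b ^ ta := by
    push_cast
    have h1 : 0 ≤ (M * (4 * T0 * E1) + E2 : ℝ) := by positivity
    have h2 := mul_le_mul_of_nonneg_right hIt h1
    have h3 := mul_le_mul_of_nonneg_right (add_le_add hF1 hF2) hbt.le
    have e1 : (c : ℝ) ^ ta * b ^ ta * (M * (4 * T0 * E1) + E2) =
      ((c : ℝ) ^ ta * (M * (4 * T0 * E1)) + (c : ℝ) ^ ta * E2) * b ^ ta := by ring
    have e2 : (1 / 2 * (T0 * V) + 1 / 2 * (T0 * V)) * b ^ ta = T0 * V * b ^ ta := by ring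
    rw [e1] at h2
    rw [e2] at h3
    exact h2.trans h3
  obtain ⟨Y, hY⟩ : ∃ Y : ℝ, Y = T0 * V * b ^ ta := ⟨_, rfl⟩
  have hY0 : 0 < Y := by rw [hY]; positivity
  have hfin : 3 / 4 * lam * Y ≤ M * (15 / 4 * Y) + Y := by
    have h1 : T0 * (3 / 4 * V * (lam * b ^ ta)) = 3 / 4 * lam * Y := by rw [hY]; ring
    have h2 := mul_le_mul_of_nonneg_left (add_le_add hup2 hall2) hM0
    rw [← hY] at h2 herr
    rw [h1] at hlow2
    have h3 : (M : ℝ) * (5 / 2 * Y + 5 / 4 * Y) = M * (15 / 4 * Y) := by ring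
    rw [h3] at h2
    exact hlow2.trans (hsum.trans (add_le_add h2 herr))
  have h1 : (3 / 4 * lam - 15 / 4 * M - 1) * Y ≤ 0 := by
    have e : (3 / 4 * lam - 15 / 4 * M - 1) * Y = 3 / 4 * lam * Y - (M * (15 / 4 * Y) + Y) := by ring
    rw [e]
    linarith
  have h2 : 0 < 3 / 4 * lam - 15 / 4 * M - 1 := by linarith
  exact absurd h1 (not_le.2 (mul_pos h2 hY0))

theorem bothSides_mono {n e e' D D' : ℕ} (he : e ≤ e') (hD : D' ≤ D) (hD1 : 1 ≤ D') (hn : 1 ≤ n)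
    {f : Pt n → Bool} (h : BothSides n e' D' f) : BothSides n e D f := by
  obtain ⟨s, hs, h1⟩ := h
  refine ⟨s, ?_, fun b => ?_⟩
  · rcases Nat.eq_zero_or_pos s with h0 | h0
    · subst h0
      calc 0 ^ e ≤ 1 := pow_le_one₀ (le_refl 0) zero_le_one
        _ ≤ D * n := Nat.mul_pos (by omega) hn
    · exact (Nat.pow_le_pow_right h0 he).trans (hs.trans (Nat.mul_le_mul_right n hD))
  · obtain ⟨m, q, h2, h3, h4⟩ := h1 b
    exact ⟨m, q, h2.trans hD, h3, h4⟩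

theorem noGap_mono {n k k' q q' c c' D D' : ℕ} (hk : k ≤ k') (hq : q ≤ q') (hc : c ≤ c')
    (hD : D' ≤ D) (hD1 : 1 ≤ D') {f : Pt n → Bool} (h : NoGap n k' q' c' D' f) :
    NoGap n k q c D f := by
  intro τ hτ I b P o hb hI hP
  have hpow : 2 ^ (n / D) ≤ 2 ^ (n / D') :=
    Nat.pow_le_pow_right (by norm_num) (Nat.div_le_div_left hD (by omega))
  obtain ⟨x, hx⟩ := h τ (hτ.trans (Nat.mul_le_mul_right n hk)) I b P o hb (hI.trans (by
    apply mul_le_mul_of_nonneg_right _ hb.le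
    exact_mod_cast hc)) (fun ω => (hP ω).trans hpow)
  have hqr : (q : ℝ) ≤ q' := by exact_mod_cast hq
  by_cases h1 : b < (Nat.card {ω // OutIn (P ω) τ o x} : ℝ)
  · rcases hx with ⟨h2, h3⟩ | ⟨h2, h3⟩
    · exact ⟨x, Or.inl ⟨h2, by nlinarith⟩⟩
    · exact ⟨x, Or.inr ⟨h2, h3⟩⟩
  · rcases hx with ⟨h2, h3⟩ | ⟨h2, h3⟩
    · refine ⟨x, Or.inl ⟨h2, ?_⟩⟩
      rw [not_lt] at h1
      have : (0 : ℝ) ≤ q := Nat.cast_nonneg _
      nlinarith
    · exact absurd h3 h1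

/-- **One family of functions for all parameters.** -/
theorem both_family (β : ℕ → ℕ) (hβ : Filter.Tendsto β Filter.atTop Filter.atTop) :
    ∃ F : ∀ n, Pt n → Bool, ∀ k e q c : ℕ, ∃ N, ∀ n ≥ N,
      BothSides n e (β n) (F n) ∧ NoGap n k q c (β n) (F n) := by
  obtain ⟨F, hF⟩ := diag (α := fun n => Pt n → Bool)
    (fun p n f => 1 ≤ β n ∧ BothSides n (p + 1) (β n) f ∧ NoGap n p (p + 1) p (β n) f) (by
      intro p
      obtain ⟨D, hD, h⟩ := both_core p (p + 1) (p + 1) p (by omega) (by omega)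
      obtain ⟨N, hN⟩ := Filter.eventually_atTop.1 (hβ.eventually_ge_atTop D)
      refine ⟨N + D, fun n hn => ?_⟩
      obtain ⟨f, hf1, hf2⟩ := h n (by omega)
      have h1 : D ≤ β n := hN n (by omega)
      exact ⟨f, hD.trans h1, bothSides_mono le_rfl h1 hD (by omega) hf1,
        noGap_mono le_rfl le_rfl le_rfl h1 hD hf2⟩)
    (fun p p' n hn f hp h => ⟨h.1, bothSides_mono (by omega) le_rfl h.1 hn h.2.1,
      noGap_mono hp (by omega) hp le_rfl h.1 h.2.2⟩)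
  refine ⟨F, fun k e q c => ?_⟩
  obtain ⟨N, hN⟩ := hF (k + e + q + c)
  refine ⟨N + 1, fun n hn => ?_⟩
  have h := hN n (by omega)
  exact ⟨bothSides_mono (by omega) le_rfl h.1 (by omega) h.2.1,
    noGap_mono (by omega) (by omega) (by omega) le_rfl h.1 h.2.2⟩

end Pool.Agent.TH706.SD
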