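import Pool.Agent.TH706.SD.Both
import Pool.Agent.TH706.CD.Conv

/-!
# Two-sided error from thresholds with a gap
-/

set_option autoImplicit false
set_option linter.unusedSectionVars false

open Finset

namespace Pool.Agent.TH706.SD

open Pool.Agent.H554R2.Sem Pool.Agent.H554R2.Coin
open Pool.Agent.W896.PD (PP Act)
open Pool.Agent.TH706.CD (OutIn outIn_unique)

/-- Two-sided error at most `1 / 2 - 1 / r` is impossible. -/
theorem err_of_gap {n k D r : ℕ} (hr : 1 ≤ r) {f : Pt n → Bool}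
    (h : NoGap n k (r + 4) 4 D f) (Ω : Type) [Fintype Ω] [Nonempty Ω] (P : Ω → PP (Fin n) Bool)
    (hP : ∀ ω, Fintype.card (P ω).State ≤ 2 ^ (n / D)) (τ : ℕ) (hτ : τ ≤ k * n) :
    ∃ x, (Nat.card {ω // OutIn (P ω) τ (f x) x} : ℝ) < (1 / 2 + 1 / (r : ℝ)) * Nat.card Ω := by
  classical
  by_contra hcon
  push Not at hcon
  obtain ⟨m, hm⟩ : ∃ m, m = Fintype.card Ω := ⟨_, rfl⟩
  obtain ⟨E⟩ : Nonempty (Fin m ≃ Ω) := ⟨(Fintype.equivFinOfCardEq hm.symm).symm⟩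
  have hm0 : 0 < m := by rw [hm]; exact Fintype.card_pos
  have hmR : (0 : ℝ) < m := by exact_mod_cast hm0
  obtain ⟨ρ, hρ⟩ : ∃ ρ : ℝ, ρ = ((r + 4 : ℕ) : ℝ) := ⟨_, rfl⟩
  have hr0 : (1 : ℝ) ≤ r := by exact_mod_cast hr
  have hρ' : ρ = (r : ℝ) + 4 := by rw [hρ]; push_cast; ring
  have hρ4 : 4 < ρ := by linarith
  have hρ0 : 0 < ρ := by linarith
  have h1ρ : 1 / ρ ≤ 1 / 4 := one_div_le_one_div_of_le (by norm_num) hρ4.le
  have h1ρ0 : 0 < 1 / ρ := by positivity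
  have h1r : 1 / ρ ≤ 1 / (r : ℝ) := one_div_le_one_div_of_le (by linarith) (by linarith)
  obtain ⟨b, hb⟩ : ∃ b : ℝ, b = (1 / 2 - 1 / ρ) * m := ⟨_, rfl⟩
  have hb0 : 0 < b := by
    rw [hb]
    apply mul_pos _ hmR
    linarith
  have hcount : ∀ (o : Bool) (x : Pt n), Nat.card {ω : Fin m // OutIn (P (E ω)) τ o x} =
      Nat.card {ω // OutIn (P ω) τ o x} := by
    intro o x
    exact Nat.card_congr (E.subtypeEquiv fun _ => Iff.rfl)
  obtain ⟨x, hx⟩ := h τ hτ m b (fun i => P (E i)) false hb0 (by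
    rw [hb]
    push_cast
    nlinarith) (fun i => hP _)
  rw [hcount] at hx
  have h1 := hcon x
  have hΩ : (Nat.card Ω : ℝ) = m := by rw [hm, Nat.card_eq_fintype_card]
  rw [hΩ] at h1
  have h2 : (1 / 2 + 1 / ρ) * (m : ℝ) ≤ Nat.card {ω // OutIn (P ω) τ (f x) x} := by
    refine le_trans ?_ h1
    exact mul_le_mul_of_nonneg_right (by linarith) hmR.le
  rcases hx with ⟨hf, h3⟩ | ⟨hf, h3⟩
  · rw [hf] at h2
    have h4 : ((r + 4 : ℕ) : ℝ) * ((1 / 2 + 1 / ρ) * m) ≤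
        ((r + 4 : ℕ) : ℝ) * Nat.card {ω // OutIn (P ω) τ false x} :=
      mul_le_mul_of_nonneg_left h2 (Nat.cast_nonneg _)
    have h5 := lt_of_le_of_lt h4 h3
    rw [← hρ, hb] at h5
    have h6 : ρ * (1 / ρ) = 1 := by field_simp
    have h7 : ρ * ((1 / 2 + 1 / ρ) * m) = (ρ / 2 + ρ * (1 / ρ)) * m := by ring
    have h8 : (ρ + 1) * ((1 / 2 - 1 / ρ) * m) = (ρ / 2 - ρ * (1 / ρ) + 1 / 2 - 1 / ρ) * m := by ring
    rw [h7, h8, h6] at h5
    have h9 : (ρ / 2 + 1) * (m : ℝ) - (ρ / 2 - 1 + 1 / 2 - 1 / ρ) * m = (3 / 2 + 1 / ρ) * m := by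
      ring
    have h10 : 0 < (3 / 2 + 1 / ρ) * (m : ℝ) := by positivity
    linarith
  · rw [hf] at h2
    have h4 : Nat.card {ω // OutIn (P ω) τ true x} + Nat.card {ω // OutIn (P ω) τ false x} ≤
        Fintype.card Ω := by
      rw [Nat.card_eq_fintype_card, Nat.card_eq_fintype_card, Fintype.card_subtype,
        Fintype.card_subtype, ← Finset.card_union_of_disjoint]
      · exact Finset.card_le_univ _
      · rw [Finset.disjoint_left]
        intro ω h5 h6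
        have := outIn_unique (Finset.mem_filter.1 h5).2 (Finset.mem_filter.1 h6).2
        exact Bool.noConfusion this
    rw [← hm] at h4
    have h5 : (Nat.card {ω // OutIn (P ω) τ true x} : ℝ) +
        Nat.card {ω // OutIn (P ω) τ false x} ≤ m := by exact_mod_cast h4
    rw [hb] at h3
    have e : (1 / 2 + 1 / ρ) * (m : ℝ) + (1 / 2 - 1 / ρ) * m = m := by ring
    linarith

end Pool.Agent.TH706.SD
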