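import Pool.Agent.TH706.SD.Base
import Pool.Agent.W895.LA.Main

/-!
# Arthur-Merlin games in one pass against Merlin-Arthur games with `k n` queries and a stack

(after `Pool.Agent.W895.LA.Core`, `Pool.Agent.W895.LA.Main`)
-/

set_option autoImplicit false
set_option linter.unusedSectionVars false

open Finset

namespace Pool.Agent.TH706.SD

open Pool.Agent.H554R2.Sem Pool.Agent.H554R2.Coin Pool.Agent.H554R2.Lin Pool.Agent.H554R2.Rnd
open Pool.Agent.H554R2.Qua Pool.Agent.H554R2.NC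
open Pool.Agent.W895.LT (Vc tbl pat tbl_pat Perms card_Perms tb tb_of_mem idx one_any
  groups_gen pat_size)
open Pool.Agent.W895.LA
open Pool.Agent.W896.PD (PP Act)
open Pool.Agent.TH706.CD (OutIn)

variable {F : Type} [Field F] [Fintype F]

/-- the number of trials -/
theorem trials' (k c : ℕ) : ∃ t : ℕ, 1 ≤ t ∧ c ≤ t ∧
    40 * (8 * (6 * (3 * t + 1) * (k + 2)) ^ 2) ≤ 2 ^ t := by
  obtain ⟨N, hN⟩ := exp_large 2 (by norm_num) (324 * (k + 2))
  refine ⟨N + c + 1, by omega, by omega, ?_⟩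
  have h1 := hN (N + c + 1) (by omega)
  obtain ⟨t, ht⟩ : ∃ t, t = N + c + 1 := ⟨_, rfl⟩
  rw [← ht] at h1 ⊢
  calc 40 * (8 * (6 * (3 * t + 1) * (k + 2)) ^ 2) ≤ (324 * (k + 2) * (t + 1)) ^ 2 := by
        have h2 : 6 * (3 * t + 1) * (k + 2) ≤ 18 * ((k + 2) * (t + 1)) := by nlinarith
        have h3 := Nat.pow_le_pow_left h2 2
        calc 40 * (8 * (6 * (3 * t + 1) * (k + 2)) ^ 2) ≤
              324 * (18 * ((k + 2) * (t + 1))) ^ 2 := by omega
          _ = (324 * (k + 2) * (t + 1)) ^ 2 := by ring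
    _ ≤ (2 ^ (t / 2)) ^ 2 := Nat.pow_le_pow_left h1 2
    _ = 2 ^ (t / 2 * 2) := by rw [← pow_mul]
    _ ≤ 2 ^ t := Nat.pow_le_pow_right (by norm_num) (Nat.div_mul_le_self t 2)

/-- **The inequality**, for arbitrary sets of accepted inputs. -/
theorem ineq {n G m M I : ℕ} {S : ℝ} (e : Vc m ≃ F × F)
    (π : Fin (2 ^ m * m) → Fin n → Fin G) (h : Fin (2 ^ m * m) → Fin n → Fin n → Bool)
    {L : ℕ} (hL : 2 * (L : ℝ) ^ 2 < Fintype.card F)
    (hpat : ∀ z, 3 / 4 * ((2 : ℝ) ^ n / 2 ^ (2 ^ m * m)) ≤ ((Pat π h z).card : ℝ) ∧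
      ((Pat π h z).card : ℝ) ≤ 5 / 4 * ((2 : ℝ) ^ n / 2 ^ (2 ^ m * m)))
    (W : Fin I → Pt n → Prop) (E : ℝ)
    (hd : ∀ i, ∑ z ∈ Perms m, (Nat.card {x // W i x ∧ x ∈ Pat π h z} : ℝ) ≤
      M * (∑ z, bt e L z * (Nat.card {x // W i x ∧ x ∈ Pat π h z} : ℝ) +
        ((Perms m).card + ∑ z, bt e L z) * E) + S)
    (hE : 0 ≤ E) (a b : ℝ) (hb : 0 ≤ b)
    (h1 : ∀ x, ff e π h x = true → a ≤ (Nat.card {i // W i x} : ℝ))
    (h2 : ∀ x, ff e π h x = false → (Nat.card {i // W i x} : ℝ) ≤ b) :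
    3 / 4 * a * ((Perms m).card * ((2 : ℝ) ^ n / 2 ^ (2 ^ m * m))) ≤
      5 / 2 * M * b * ((Perms m).card * ((2 : ℝ) ^ n / 2 ^ (2 ^ m * m))) +
      I * (M * (3 * (Perms m).card * E) + S) ∨ a < 0 := by
  classical
  by_cases ha : a < 0
  · exact Or.inr ha
  rw [not_lt] at ha
  left
  obtain ⟨V, hV⟩ : ∃ V : ℝ, V = (2 : ℝ) ^ n / 2 ^ (2 ^ m * m) := ⟨_, rfl⟩
  rw [← hV] at hpat ⊢
  have hV0 : 0 ≤ V := by rw [hV]; positivity
  obtain ⟨A, hA⟩ : ∃ A : ℝ, A = ((Perms m).card : ℝ) := ⟨_, rfl⟩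
  have hA0 : 0 ≤ A := by rw [hA]; exact Nat.cast_nonneg _
  have hbt : ∑ z, bt e L z ≤ 2 * A := by
    rw [hA, card_Perms]
    exact sum_bt e hL
  have hbt0 : ∀ z, 0 ≤ bt e L z := fun z => bt_nonneg e (by nlinarith [sq_nonneg (L : ℝ)]) z
  have hM : (0 : ℝ) ≤ M := Nat.cast_nonneg _
  -- double counting
  have hdc : ∀ z, ∑ i, (Nat.card {x // W i x ∧ x ∈ Pat π h z} : ℝ) =
      ∑ x ∈ Pat π h z, (Nat.card {i // W i x} : ℝ) := by
    intro z
    have e1 : ∀ i, (Nat.card {x // W i x ∧ x ∈ Pat π h z} : ℝ) =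
        ∑ x ∈ Pat π h z, if W i x then (1 : ℝ) else 0 := by
      intro i
      rw [Nat.card_eq_fintype_card, Fintype.card_subtype, Finset.sum_ite, Finset.sum_const_zero,
        add_zero, Finset.sum_const, nsmul_eq_mul, mul_one]
      congr 2
      ext x
      simp only [mem_filter, mem_univ, true_and]
      tauto
    have e2 : ∀ x, (Nat.card {i // W i x} : ℝ) =
        ∑ i, if W i x then (1 : ℝ) else 0 := by
      intro x
      rw [Nat.card_eq_fintype_card, Fintype.card_subtype, Finset.sum_boole]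
    simp only [e1, e2]
    exact Finset.sum_comm
  have hs := Finset.sum_le_sum (s := (univ : Finset (Fin I))) (fun i _ => hd i)
  rw [Finset.sum_comm, Finset.sum_add_distrib, Finset.sum_const, ← Finset.mul_sum,
    Finset.sum_add_distrib, Finset.sum_const, Finset.card_univ, Fintype.card_fin,
    Finset.sum_comm (s := (univ : Finset (Fin I)))] at hs
  simp only [← Finset.mul_sum, hdc, nsmul_eq_mul] at hs
  -- the lower bound
  have hlow : 3 / 4 * a * (A * V) ≤ ∑ z ∈ Perms m, ∑ x ∈ Pat π h z,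
      (Nat.card {i // W i x} : ℝ) := by
    have h3 : ∀ z ∈ Perms m, 3 / 4 * a * V ≤ ∑ x ∈ Pat π h z,
        (Nat.card {i // W i x} : ℝ) := by
      intro z hz
      obtain ⟨p, -, rfl⟩ := Finset.mem_image.1 hz
      have h4 : ∀ x ∈ Pat π h (pat p), a ≤ (Nat.card {i // W i x} : ℝ) := by
        intro x hx
        apply h1
        rw [ff, decide_eq_true_iff, tb_of_mem hx, tbl_pat]
        exact not_isLine_coe e p
      have h5 := Finset.card_nsmul_le_sum _ _ _ h4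
      rw [nsmul_eq_mul] at h5
      refine le_trans ?_ h5
      have h6 := mul_le_mul_of_nonneg_right (hpat (pat p)).1 ha
      linarith
    have h4 := Finset.card_nsmul_le_sum _ _ _ h3
    rw [nsmul_eq_mul, ← hA] at h4
    linarith
  have hup : ∑ z, bt e L z * ∑ x ∈ Pat π h z, (Nat.card {i // W i x} : ℝ) ≤
      5 / 2 * b * (A * V) := by
    have h3 : ∀ z, bt e L z * ∑ x ∈ Pat π h z, (Nat.card {i // W i x} : ℝ) ≤
        bt e L z * (5 / 4 * V * b) := by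
      intro z
      by_cases hz : bt e L z = 0
      · rw [hz, zero_mul, zero_mul]
      · apply mul_le_mul_of_nonneg_left _ (hbt0 z)
        have h4 : ∀ x ∈ Pat π h z, (Nat.card {i // W i x} : ℝ) ≤ b := by
          intro x hx
          apply h2
          rw [ff, decide_eq_false_iff_not, not_not, tb_of_mem hx]
          exact isLine_of_bt e hz
        have h5 := Finset.sum_le_card_nsmul _ _ _ h4
        rw [nsmul_eq_mul] at h5
        refine h5.trans ?_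
        exact mul_le_mul_of_nonneg_right (hpat z).2 hb
    refine (Finset.sum_le_sum fun z _ => h3 z).trans ?_
    rw [← Finset.sum_mul]
    have h4 : 0 ≤ 5 / 4 * V * b := by positivity
    have h5 := mul_le_mul_of_nonneg_right hbt h4
    linarith
  have h3 : ((A + ∑ z, bt e L z) * E) ≤ 3 * A * E := by
    have h4 := mul_le_mul_of_nonneg_right (add_le_add_right hbt A) hE
    linarith
  rw [← hA] at hs
  rw [← hA]
  have hI : (0 : ℝ) ≤ I := Nat.cast_nonneg _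
  have h4 : (M : ℝ) * (∑ z, bt e L z * ∑ x ∈ Pat π h z, (Nat.card {i // W i x} : ℝ)) ≤
      M * (5 / 2 * b * (A * V)) := mul_le_mul_of_nonneg_left hup hM
  have h5 : (M : ℝ) * (I * ((A + ∑ z, bt e L z) * E)) ≤ M * (I * (3 * A * E)) :=
    mul_le_mul_of_nonneg_left (mul_le_mul_of_nonneg_left h3 hI) hM
  have h6 := hlow.trans hs
  rw [mul_add] at h6
  linarith

/-- all the constants -/
theorem main_core (k e c q : ℕ) (he : 1 ≤ e) : ∃ (ta D : ℕ) (M : ℕ), 1 ≤ ta ∧ c ≤ ta ∧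
    M = 8 * (6 * (3 * ta + 1) * (k + 2)) ^ 2 ∧ 40 * M ≤ 2 ^ ta ∧ 1 ≤ D ∧
    ∀ n ≥ D, ∃ (f : Pt n → Bool) (s : ℕ), s ^ e ≤ D * n ∧
    (∃ (R J : ℕ) (V : Fin R → Fin J → BP (Fin n) Bool), 1 ≤ R ∧ R ≤ J ∧ J ≤ D ∧
      (∀ r j, Fintype.card (V r j).State ≤ 2 ^ s ∧ ∃ l : List (Fin n), l.Nodup ∧
        ∀ x : Pt n, ∃ b, (V r j).Comp x l b) ∧
      (∀ x, f x = true → ∀ r, ∃ j, ∃ l, (V r j).Comp x l true) ∧
      ∀ x, f x = false → 2 ^ q * Nat.card {r // ∃ j, ∃ l, (V r j).Comp x l true} ≤ R ∧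
        Nat.card {r // ∃ j, ∃ l, (V r j).Comp x l true} ^ 8 * J ≤ R ^ 8) ∧
    ∀ (I : ℕ) (P : Fin I → Fin ta → PP (Fin n) Bool) (τ : ℕ), τ ≤ k * n →
      (∀ i j, Fintype.card (P i j).State ≤ 2 ^ (n / D)) →
      ∀ a b : ℝ, 0 ≤ a → 0 ≤ b →
        (∀ x, f x = true → a ≤ (Nat.card {i // ∀ j, OutIn (P i j) τ true x} : ℝ)) →
        (∀ x, f x = false → (Nat.card {i // ∀ j, OutIn (P i j) τ true x} : ℝ) ≤ b) →
        3 / 4 * a ≤ 5 / 2 * M * b + 1 / 4 * (I / 2 ^ (n / D)) := by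
  classical
  obtain ⟨ta, hta, htc, ht1⟩ := trials' k c
  obtain ⟨Q, r, N, hQ, hr, hN, hdet⟩ := det_pp k ta
  obtain ⟨M, hM⟩ : ∃ M : ℕ, M = 8 * (6 * (3 * ta + 1) * (k + 2)) ^ 2 := ⟨_, rfl⟩
  rw [← hM] at ht1
  obtain ⟨h0, hh0, hq0, hh2⟩ := exists_h (64 * (e * 4) * (Q + 4)) q
  -- the field
  let F : Type := GaloisField 2 h0
  haveI : Fintype F := Fintype.ofFinite F
  have hF : Fintype.card F = 2 ^ h0 := by
    rw [← Nat.card_eq_fintype_card]
    exact GaloisField.card 2 h0 (by omega)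
  obtain ⟨m, hm0⟩ : ∃ m, m = 2 * h0 := ⟨_, rfl⟩
  have hm : 1 ≤ m := by omega
  obtain ⟨pl⟩ : Nonempty (Vc m ≃ F × F) := by
    refine ⟨Fintype.equivOfCardEq ?_⟩
    rw [Fintype.card_prod, hF, hm0]
    simp
    ring
  obtain ⟨D0, hD0⟩ : ∃ D0 : ℕ, D0 = 2 ^ m * m := ⟨_, rfl⟩
  have hD01 : 1 ≤ D0 := by
    rw [hD0]
    exact Nat.mul_pos (by positivity) hm
  obtain ⟨L, hL⟩ : ∃ L : ℕ, L = 64 * (e * (4 * m)) * (Q + 4) := ⟨_, rfl⟩
  have hL2 : 2 * (L : ℝ) ^ 2 < Fintype.card F := by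
    have : L = 64 * (e * 4) * (Q + 4) * (2 * h0) := by rw [hL, hm0]; ring
    rw [this, hF]
    exact hh2
  have hqm : 1 ≤ 4 * m := by omega
  obtain ⟨W1, N2, hW1, hcoefs⟩ := coefs_gen (Q + 4) (2 ^ m * m) (by omega)
  obtain ⟨N1, C, hN1⟩ := groups_gen (Q + 4) e (4 * m) (2 ^ m * m) W1 (by omega) he hqm
    (by rw [← hD0]; exact hD01)
  obtain ⟨N4, hN4p, hN4⟩ := err2 k r N (8 * 2 ^ D0) hN
  obtain ⟨N5, hN5⟩ := exp_large 32768 (by norm_num) (2 ^ (D0 + 2))
  obtain ⟨N6, hN6p, hN6⟩ := err1 (48 * M * 2 ^ D0) (16384 * Q) (by omega)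
  obtain ⟨D, hD⟩ : ∃ D : ℕ, D = 3 ^ e * ((4 * m + 4) ^ e + e ^ e + C) + N + N1 + N2 + N4 +
    N5 + N6 + (2 ^ m) ^ 4 + 10 := ⟨_, rfl⟩
  refine ⟨ta, D, M, hta, htc, hM, ht1, by omega, fun n hn => ?_⟩
  have hn0 : 1 ≤ n := by omega
  obtain ⟨G, π, hG, hWG, hbal, ⟨A0, B0, hdisj, hA0, hB0, hbal0⟩, hblocks⟩ := hN1 n (by omega)
  obtain ⟨h, hker⟩ := hcoefs n (by omega) G hG hWG π
  obtain ⟨s, hs1, hs2⟩ := exists_s e D n he
  have hQ2 : ∀ a : ℕ, n ≤ Q * a → n ≤ (Q + 4) * a := fun a ha => ha.trans (by nlinarith)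
  refine ⟨ff pl π h, s, hs1, ?_, ?_⟩
  · -- the game
    have hT : ∀ u : Fin 4 → Vc m,
        ((univ : Finset (Fin 4 × Fin m)).image (fun p => idx m (u p.1, p.2))).card ≤ 4 * m := by
      intro u
      refine Finset.card_image_le.trans ?_
      simp
    choose V0 l0 hV1 hV2 hV3 using fun (w : Vc m) (u : Fin 4 → Vc m) =>
      one_any he hn0 π h hblocks (by omega) hs2 _ (hT u) (ver pl w u) (ver_congr pl w u)
    obtain ⟨R, hR⟩ : ∃ R, R = Nat.card (Vc m) := ⟨_, rfl⟩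
    obtain ⟨J, hJ⟩ : ∃ J, J = Nat.card (Fin 4 → Vc m) := ⟨_, rfl⟩
    have hR' : R = 2 ^ m := by rw [hR]; simp
    have hJ' : J = (2 ^ m) ^ 4 := by rw [hJ]; simp
    have E : Fin R ≃ Vc m := by
      rw [hR]
      exact (Finite.equivFin _).symm
    have E' : Fin J ≃ (Fin 4 → Vc m) := by
      rw [hJ]
      exact (Finite.equivFin _).symm
    have hacc : ∀ w u x, (∃ l, (V0 w u).Comp x l true) ↔
        ver pl w u (fun c => qr (π c) (h c) x) = true := by
      intro w u x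
      constructor
      · rintro ⟨l, hl⟩
        exact R25_comp_det _ x (hV3 w u x) hl
      · intro h1
        have h2 := hV3 w u x
        rw [h1] at h2
        exact ⟨_, h2⟩
    refine ⟨R, J, fun a b => V0 (E a) (E' b), ?_, ?_, ?_, ?_, ?_, ?_⟩
    · rw [hR']
      exact Nat.one_le_two_pow
    · rw [hR', hJ']
      exact Nat.le_self_pow (by norm_num) _
    · rw [hJ']
      omega
    · intro a b
      exact ⟨hV1 _ _, _, hV2 _ _, fun x => ⟨_, hV3 _ _ x⟩⟩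
    · intro x hx a
      rw [ff, decide_eq_true_iff] at hx
      obtain ⟨u, hu⟩ := exists_u pl hx (E a)
      refine ⟨E'.symm u, ?_⟩
      rw [hacc, Equiv.apply_symm_apply]
      exact hu
    · intro x hx
      rw [ff, decide_eq_false_iff_not, not_not] at hx
      have h1 := card_w pl hx
      rw [hF] at h1
      have h2 : Nat.card {r // ∃ j, ∃ l, (V0 (E r) (E' j)).Comp x l true} =
          Nat.card {w : Vc m // ∃ u : Fin 4 → Vc m,
            ver pl w u (fun c => qr (π c) (h c) x) = true} := by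
        apply Nat.card_congr
        refine E.subtypeEquiv fun a => ?_
        constructor
        · rintro ⟨b, hb⟩
          rw [hacc] at hb
          exact ⟨_, hb⟩
        · rintro ⟨u, hu⟩
          refine ⟨E'.symm u, ?_⟩
          rw [hacc, Equiv.apply_symm_apply]
          exact hu
      rw [h2]
      have h3 : Nat.card {w : Vc m // ∃ u : Fin 4 → Vc m,
            ver pl w u (fun c => qr (π c) (h c) x) = true} * 2 ^ h0 ≤ R := by
        rw [hR', mul_comm]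
        exact h1
      constructor
      · refine le_trans ?_ h3
        rw [mul_comm]
        exact Nat.mul_le_mul_left _ (Nat.pow_le_pow_right (by norm_num) hq0)
      · have h4 : J = (2 ^ h0) ^ 8 := by
          rw [hJ', hm0]
          ring
        rw [h4, ← mul_pow]
        exact Nat.pow_le_pow_left h3 8
  · -- the lower bound
    intro I P τ hτ hP a b ha hb h1 h2
    have hpat := pat_size π h A0 B0 hdisj hA0 hB0 hbal0 hker (by
      rw [← hD0]
      exact (Nat.le_mul_of_pos_right _ (by omega)).trans (hN5 n (by omega)))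
    obtain ⟨E, hE⟩ : ∃ E : ℝ, E = 2 * 2 ^ n / 2 ^ (n / (16384 * Q)) := ⟨_, rfl⟩
    have hE0 : 0 ≤ E := by rw [hE]; positivity
    obtain ⟨S0, hS0⟩ : ∃ S0 : ℕ, S0 = ((2 ^ (n / D) * (τ + 1)) ^ 2 + 1) ^ r := ⟨_, rfl⟩
    obtain ⟨S, hS⟩ : ∃ S : ℝ, S = (S0 : ℝ) * (2 ^ n / 2 ^ (n / N)) := ⟨_, rfl⟩
    have hd : ∀ i, ∑ z ∈ Perms m,
        (Nat.card {x // (∀ j, OutIn (P i j) τ true x) ∧ x ∈ Pat π h z} : ℝ) ≤
      M * (∑ z, bt pl L z *
          (Nat.card {x // (∀ j, OutIn (P i j) τ true x) ∧ x ∈ Pat π h z} : ℝ) +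
        ((Perms m).card + ∑ z, bt pl L z) * E) + S := by
      intro i
      have h3 := hdet n (by omega) (Perms m) (bt pl L)
        (fun z => bt_nonneg pl (by nlinarith [sq_nonneg (L : ℝ)]) z) (comparison pl hL2) π h
        (fun A B' h1 h2 h3 => hker A B' h1 (hQ2 _ h2) (hQ2 _ h3))
        (fun A B' h2 h3 => (hbal A B' (hQ2 _ h2) (hQ2 _ h3)).trans hL.symm.le) (P i)
        (fun _ => true) τ hτ _ (hP i) (univ.filter (fun x => ∀ j, OutIn (P i j) τ true x))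
        (fun x => by simp only [mem_filter, mem_univ, true_and])
      have e1 : ∀ z, (Nat.card {x // (∀ j, OutIn (P i j) τ true x) ∧ x ∈ Pat π h z} : ℝ) =
          (((univ.filter (fun x => ∀ j, OutIn (P i j) τ true x)) ∩ Pat π h z).card : ℝ) := by
        intro z
        rw [Nat.card_eq_fintype_card, Fintype.card_subtype]
        congr 2
        ext x
        simp only [mem_filter, mem_univ, true_and, mem_inter]
      simp only [e1]
      have e2 : 8 * ((6 * (3 * ta + 1) * (k + 2) : ℕ) : ℝ) ^ 2 = M := by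
        rw [hM]; push_cast; ring
      rw [e2, ← hE, ← hS0, ← hS] at h3
      exact h3
    have h3 := ineq pl π h hL2 hpat (fun i x => ∀ j, OutIn (P i j) τ true x) E hd hE0 a b hb h1 h2
    rcases h3 with h3 | h3
    swap
    · exact absurd h3 (not_lt.2 ha)
    obtain ⟨V, hV⟩ : ∃ V : ℝ, V = (2 : ℝ) ^ n / 2 ^ (2 ^ m * m) := ⟨_, rfl⟩
    obtain ⟨A, hA⟩ : ∃ A : ℝ, A = ((Perms m).card : ℝ) := ⟨_, rfl⟩
    have hV0 : 0 < V := by rw [hV]; positivity
    have hA1 : 1 ≤ A := by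
      rw [hA, card_Perms]
      exact_mod_cast Fintype.card_pos (α := Equiv.Perm (Vc m))
    rw [← hV, ← hA] at h3
    have hAV : 0 < A * V := mul_pos (by linarith) hV0
    have hnD : (0 : ℝ) < 2 ^ (n / D) := by positivity
    have h2n : (0 : ℝ) < 2 ^ n := by positivity
    -- the error terms
    have hZ : S ≤ 1 / 8 * V / 2 ^ (n / D) := by
      have h5 := hN4 D (by omega) n (by omega) τ hτ
      rw [← hS0] at h5
      have h6 : (S0 : ℝ) * 2 ^ (n / D) * (8 * 2 ^ D0) ≤ 2 ^ (n / N) := by exact_mod_cast h5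
      have h7 : (0 : ℝ) < 2 ^ (n / N) := by positivity
      have h8 : (0 : ℝ) < 2 ^ D0 := by positivity
      rw [hS, hV, ← hD0, le_div_iff₀ hnD]
      have e : (S0 : ℝ) * (2 ^ n / 2 ^ (n / N)) * 2 ^ (n / D) =
          ((S0 : ℝ) * 2 ^ (n / D) * (8 * 2 ^ D0)) * (1 / 8 * (2 ^ n / 2 ^ D0)) /
            2 ^ (n / N) := by
        field_simp
      rw [e, div_le_iff₀ h7]
      calc ((S0 : ℝ) * 2 ^ (n / D) * (8 * 2 ^ D0)) * (1 / 8 * (2 ^ n / 2 ^ D0)) ≤
            2 ^ (n / N) * (1 / 8 * (2 ^ n / 2 ^ D0)) :=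
            mul_le_mul_of_nonneg_right h6 (by positivity)
        _ = 1 / 8 * (2 ^ n / 2 ^ D0) * 2 ^ (n / N) := by ring
    have hY : (M : ℝ) * (3 * E) ≤ 1 / 8 * V / 2 ^ (n / D) := by
      have h5 : 48 * M * 2 ^ D0 * 2 ^ (n / D) ≤ 2 ^ (n / (16384 * Q)) :=
        hN6 D (by omega) n (by omega)
      have h6 : 48 * (M : ℝ) * (2 : ℝ) ^ D0 * 2 ^ (n / D) ≤ 2 ^ (n / (16384 * Q)) := by
        exact_mod_cast h5
      have h7 : (0 : ℝ) < 2 ^ (n / (16384 * Q)) := by positivity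
      have h8 : (0 : ℝ) < 2 ^ D0 := by positivity
      rw [hE, hV, ← hD0, le_div_iff₀ hnD]
      have e : (M : ℝ) * (3 * (2 * 2 ^ n / 2 ^ (n / (16384 * Q)))) * 2 ^ (n / D) =
          (48 * (M : ℝ) * (2 : ℝ) ^ D0 * 2 ^ (n / D)) * (1 / 8 * (2 ^ n / 2 ^ D0)) /
            2 ^ (n / (16384 * Q)) := by
        field_simp
        ring
      rw [e, div_le_iff₀ h7]
      calc (48 * (M : ℝ) * (2 : ℝ) ^ D0 * 2 ^ (n / D)) * (1 / 8 * (2 ^ n / 2 ^ D0)) ≤
            2 ^ (n / (16384 * Q)) * (1 / 8 * (2 ^ n / 2 ^ D0)) :=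
            mul_le_mul_of_nonneg_right h6 (by positivity)
        _ = 1 / 8 * (2 ^ n / 2 ^ D0) * 2 ^ (n / (16384 * Q)) := by ring
    have hI : (0 : ℝ) ≤ I := Nat.cast_nonneg _
    have h4 : (M : ℝ) * (3 * A * E) + S ≤ 1 / 4 * (A * V) / 2 ^ (n / D) := by
      have h5 : (M : ℝ) * (3 * A * E) ≤ A * (1 / 8 * V / 2 ^ (n / D)) := by
        have := mul_le_mul_of_nonneg_left hY (show 0 ≤ A by linarith)
        calc (M : ℝ) * (3 * A * E) = A * (M * (3 * E)) := by ring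
          _ ≤ _ := this
      have h6 : S ≤ A * (1 / 8 * V / 2 ^ (n / D)) :=
        hZ.trans (le_mul_of_one_le_left (by positivity) hA1)
      have e : 1 / 4 * (A * V) / 2 ^ (n / D) = A * (1 / 8 * V / 2 ^ (n / D)) +
          A * (1 / 8 * V / 2 ^ (n / D)) := by ring
      rw [e]
      exact add_le_add h5 h6
    have h5 := h3.trans (add_le_add (le_refl (5 / 2 * (M : ℝ) * b * (A * V))) (mul_le_mul_of_nonneg_left h4 hI))
    have e : 5 / 2 * (M : ℝ) * b * (A * V) + I * (1 / 4 * (A * V) / 2 ^ (n / D)) =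
        (5 / 2 * M * b + 1 / 4 * (I / 2 ^ (n / D))) * (A * V) := by
      field_simp
    rw [e] at h5
    exact le_of_mul_le_mul_right h5 hAV

end Pool.Agent.TH706.SD
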