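import Pool.Agent.TH706.SD.Games
import Pool.Agent.TH706.SD.OneSided
import Pool.Agent.W895.LA.Final

/-!
# The lower bound for Merlin-Arthur games with a stack, and one family of functions

(after `Pool.Agent.W895.LA.Final`)
-/

set_option autoImplicit false
set_option linter.unusedSectionVars false

open Finset

namespace Pool.Agent.TH706.SD

open Pool.Agent.H554R2.Sem Pool.Agent.H554R2.Coin Pool.Agent.H554R2.Lin Pool.Agent.H554R2.Rnd
open Pool.Agent.W895.LT (diag)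
open Pool.Agent.W895.LA (OnePassAM onePassAM_mono)
open Pool.Agent.W896.PD (PP Act)
open Pool.Agent.TH706.CD (OutIn)

/-- `f` has no Merlin-Arthur game in time `k n` and space `n / D`. -/
def NoMA (n k c D : ℕ) (f : Pt n → Bool) : Prop :=
  ∀ τ ≤ k * n, ∀ W T b : ℕ, 1 ≤ b → W ≤ 2 ^ (n / D) → T ≤ b * 2 ^ (n / D) →
    ∀ P : Fin W → Fin T → PP (Fin n) Bool, (∀ y ω, Fintype.card (P y ω).State ≤ 2 ^ (n / D)) →
    ∃ x, (f x = true ∧ ∀ y, Nat.card {ω // OutIn (P y ω) τ true x} < 2 * b) ∨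
      (f x = false ∧ ∃ y, b ^ c < W * Nat.card {ω // OutIn (P y ω) τ true x} ^ c)

/-- both together -/
def Sep (n k e c q D : ℕ) (f : Pt n → Bool) : Prop := OnePassAM n e q D f ∧ NoMA n k c D f

/-- the theorem, for fixed parameters -/
theorem core1 (k e c q : ℕ) (he : 1 ≤ e) (hc : 1 ≤ c) : ∃ D : ℕ, 1 ≤ D ∧
    ∀ n ≥ D, ∃ f : Pt n → Bool, Sep n k e c q D f := by
  classical
  obtain ⟨ta, D, M, hta, htc, hM, h2t, hD0, hmain⟩ := main_core k e c q he
  obtain ⟨D', hD'⟩ : ∃ D' : ℕ, D' = D * (ta + 1) := ⟨_, rfl⟩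
  have hDD : D ≤ D' := by
    rw [hD']
    exact Nat.le_mul_of_pos_right _ (by omega)
  refine ⟨D', by omega, fun n hn => ?_⟩
  have hn1 : 1 ≤ n := by omega
  obtain ⟨f, s, hs, ⟨R, J, V, hR1, hR2, hJ, hV, hcc, hsnd⟩, hlow⟩ := hmain n (by omega)
  have hpow : 2 ^ (n / D') ≤ 2 ^ (n / D) :=
    Nat.pow_le_pow_right (by norm_num) (Nat.div_le_div_left hDD (by omega))
  have hpow2 : (2 ^ (n / D')) ^ (ta + 1) ≤ 2 ^ (n / D) := by
    rw [← pow_mul]
    apply Nat.pow_le_pow_right (by norm_num)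
    rw [Nat.le_div_iff_mul_le (by omega)]
    have h1 : D' * (n / D') ≤ n := Nat.mul_div_le n D'
    have h2 : n / D' * (ta + 1) * D = D' * (n / D') := by
      rw [hD']
      ring
    rw [h2]
    exact h1
  refine ⟨f, ⟨s, R, J, V, hs.trans (Nat.mul_le_mul_right n hDD), hR1, hR2, hJ.trans hDD,
      hV, hcc, hsnd⟩, ?_⟩
  intro τ hτ W T b hb hW hT P hP
  by_contra hcon
  push Not at hcon
  obtain ⟨I, hI⟩ : ∃ I, I = Nat.card (Fin W × (Fin ta → Fin T)) := ⟨_, rfl⟩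
  have hcardI : Nat.card (Fin W × (Fin ta → Fin T)) = W * T ^ ta := by simp
  have E : Fin I ≃ Fin W × (Fin ta → Fin T) := by
    rw [hI]
    exact (Finite.equivFin _).symm
  have hacc : ∀ x, Nat.card {i // ∀ j, OutIn (P (E i).1 ((E i).2 j)) τ true x} =
      ∑ y, Nat.card {ω // OutIn (P y ω) τ true x} ^ ta := by
    intro x
    have h1 : Nat.card {i // ∀ j, OutIn (P (E i).1 ((E i).2 j)) τ true x} =
        Nat.card (Σ y : Fin W, {ω : Fin ta → Fin T // ∀ j, OutIn (P y (ω j)) τ true x}) := by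
      apply Nat.card_congr
      refine (E.subtypeEquiv (q := fun z => ∀ j, OutIn (P z.1 (z.2 j)) τ true x)
        (fun i => Iff.rfl)).trans ?_
      exact
        { toFun := fun z => ⟨z.1.1, ⟨z.1.2, z.2⟩⟩
          invFun := fun z => ⟨(z.1, z.2.1), z.2.2⟩
          left_inv := fun z => rfl
          right_inv := fun z => rfl }
    rw [h1, Nat.card_sigma]
    exact Finset.sum_congr rfl fun y _ =>
      card_acc (t := ta) (fun ω => OutIn (P y ω) τ true x)
  have hb' : (1 : ℝ) ≤ b := by exact_mod_cast hb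
  have h3 := hlow I (fun i j => P (E i).1 ((E i).2 j)) τ hτ (fun i j => (hP _ _).trans hpow)
    (((2 * b : ℕ) : ℝ) ^ ta) ((b : ℝ) ^ ta) (by positivity) (by positivity) ?_ ?_
  · have h4 : (I : ℝ) / 2 ^ (n / D) ≤ (b : ℝ) ^ ta := by
      rw [hI, hcardI, div_le_iff₀ (by positivity)]
      have h5 : W * T ^ ta ≤ b ^ ta * 2 ^ (n / D) :=
        calc W * T ^ ta ≤ 2 ^ (n / D') * (b * 2 ^ (n / D')) ^ ta :=
              Nat.mul_le_mul hW (Nat.pow_le_pow_left hT ta)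
          _ = b ^ ta * (2 ^ (n / D')) ^ (ta + 1) := by rw [mul_pow, pow_succ]; ring
          _ ≤ b ^ ta * 2 ^ (n / D) := Nat.mul_le_mul_left _ hpow2
      exact_mod_cast h5
    have h5 : (((2 * b : ℕ) : ℝ)) ^ ta = 2 ^ ta * (b : ℝ) ^ ta := by
      push_cast
      rw [mul_pow]
    have h6 : (1 : ℝ) ≤ (b : ℝ) ^ ta := one_le_pow₀ hb'
    rw [h5] at h3
    have h2t' : 40 * (M : ℝ) ≤ 2 ^ ta := by exact_mod_cast h2t
    have h7 : 40 * (M : ℝ) * (b : ℝ) ^ ta ≤ 2 ^ ta * (b : ℝ) ^ ta :=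
      mul_le_mul_of_nonneg_right h2t' (by linarith)
    have h8 : (1 : ℝ) ≤ M := by
      have : 1 ≤ M := by
        rw [hM]
        exact Nat.one_le_iff_ne_zero.2 (by positivity)
      exact_mod_cast this
    have h9 : (b : ℝ) ^ ta ≤ M * (b : ℝ) ^ ta := le_mul_of_one_le_left (by linarith) h8
    nlinarith
  · intro x hx
    obtain ⟨y, hy⟩ := (hcon x).1 hx
    rw [hacc]
    have h4 : (2 * b) ^ ta ≤ ∑ y, Nat.card {ω // OutIn (P y ω) τ true x} ^ ta :=
      (Nat.pow_le_pow_left hy ta).trans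
        (Finset.single_le_sum (f := fun y => Nat.card {ω // OutIn (P y ω) τ true x} ^ ta)
          (fun _ _ => Nat.zero_le _) (Finset.mem_univ y))
    exact_mod_cast h4
  · intro x hx
    have h4 := (hcon x).2 hx
    rw [hacc]
    rcases Nat.eq_zero_or_pos W with h0 | h0
    · subst h0
      simp
    have h5 : ∀ y, W * Nat.card {ω // OutIn (P y ω) τ true x} ^ ta ≤ b ^ ta := by
      intro y
      obtain ⟨t', ht'⟩ : ∃ t', ta = c + t' := ⟨ta - c, by omega⟩
      have h6 : Nat.card {ω // OutIn (P y ω) τ true x} ≤ b := by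
        have h7 : Nat.card {ω // OutIn (P y ω) τ true x} ^ c ≤ b ^ c :=
          (Nat.le_mul_of_pos_left _ h0).trans (h4 y)
        exact (Nat.pow_le_pow_iff_left (by omega)).1 h7
      rw [ht', pow_add, pow_add, ← mul_assoc]
      exact Nat.mul_le_mul (h4 y) (Nat.pow_le_pow_left h6 t')
    have h6 : W * ∑ y, Nat.card {ω // OutIn (P y ω) τ true x} ^ ta ≤ W * b ^ ta := by
      rw [Finset.mul_sum]
      refine (Finset.sum_le_sum fun y _ => h5 y).trans ?_
      simp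
    have h7 : ∑ y, Nat.card {ω // OutIn (P y ω) τ true x} ^ ta ≤ b ^ ta :=
      Nat.le_of_mul_le_mul_left h6 h0
    exact_mod_cast h7

theorem noMA_mono {n k k' c c' D D' : ℕ} (hk : k ≤ k') (hc1 : 1 ≤ c) (hc : c ≤ c') (hD : D' ≤ D)
    (hD1 : 1 ≤ D') {f : Pt n → Bool} (h : NoMA n k' c' D' f) : NoMA n k c D f := by
  classical
  intro τ hτ W T b hb hW hT P hP
  have hpow : 2 ^ (n / D) ≤ 2 ^ (n / D') :=
    Nat.pow_le_pow_right (by norm_num) (Nat.div_le_div_left hD (by omega))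
  obtain ⟨x, hx⟩ := h τ (hτ.trans (Nat.mul_le_mul_right n hk)) W T b hb (hW.trans hpow)
    (hT.trans (Nat.mul_le_mul_left _ hpow)) P (fun y ω => (hP y ω).trans hpow)
  refine ⟨x, hx.imp id ?_⟩
  rintro ⟨h1, y, h2⟩
  refine ⟨h1, y, ?_⟩
  by_contra h3
  rw [not_lt] at h3
  apply absurd h2
  rw [not_lt]
  obtain ⟨t, ht⟩ : ∃ t, c' = c + t := ⟨c' - c, by omega⟩
  have hWp : 0 < W := lt_of_le_of_lt (Nat.zero_le _) y.2
  have h6 : Nat.card {ω // OutIn (P y ω) τ true x} ≤ b := by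
    have h7 : Nat.card {ω // OutIn (P y ω) τ true x} ^ c ≤ b ^ c :=
      (Nat.le_mul_of_pos_left _ hWp).trans h3
    exact (Nat.pow_le_pow_iff_left (by omega)).1 h7
  rw [ht, pow_add, pow_add, ← mul_assoc]
  exact Nat.mul_le_mul h3 (Nat.pow_le_pow_left h6 t)

theorem sep_mono {n k k' e e' c c' q q' D D' : ℕ} (hk : k ≤ k') (he : e ≤ e') (hc1 : 1 ≤ c)
    (hc : c ≤ c') (hq : q ≤ q') (hD : D' ≤ D) (hD1 : 1 ≤ D') (hn : 1 ≤ n) {f : Pt n → Bool}
    (h : Sep n k' e' c' q' D' f) : Sep n k e c q D f :=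
  ⟨onePassAM_mono he hq hD hD1 hn h.1, noMA_mono hk hc1 hc hD hD1 h.2⟩

/-- fixed parameters -/
theorem core2 (k e c q : ℕ) (hc : 1 ≤ c) : ∃ D : ℕ, 1 ≤ D ∧
    ∀ n ≥ D, ∃ f : Pt n → Bool, Sep n k e c q D f := by
  obtain ⟨D, hD, h⟩ := core1 k (e + 1) c q (by omega) hc
  refine ⟨D, hD, fun n hn => ?_⟩
  obtain ⟨f, hf⟩ := h n hn
  exact ⟨f, sep_mono (le_refl k) (by omega) hc (le_refl c) (le_refl q) (le_refl D) hD (by omega) hf⟩

/-- one family of functions for all parameters -/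
theorem family (β : ℕ → ℕ) (hβ : Filter.Tendsto β Filter.atTop Filter.atTop) :
    ∃ F : ∀ n, Pt n → Bool, ∀ k e c q : ℕ, 1 ≤ c → ∃ N, ∀ n ≥ N, Sep n k e c q (β n) (F n) := by
  obtain ⟨F, hF⟩ := diag (α := fun n => Pt n → Bool)
    (fun p n f => 1 ≤ β n ∧ Sep n p p (p + 1) p (β n) f) (by
      intro p
      obtain ⟨D, hD, h⟩ := core2 p p (p + 1) p (by omega)
      obtain ⟨N, hN⟩ := Filter.eventually_atTop.1 (hβ.eventually_ge_atTop D)
      refine ⟨N + D, fun n hn => ?_⟩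
      obtain ⟨f, hf⟩ := h n (by omega)
      have h1 : D ≤ β n := hN n (by omega)
      exact ⟨f, hD.trans h1, sep_mono le_rfl le_rfl (by omega) le_rfl le_rfl h1 hD (by omega) hf⟩)
    (fun p p' n hn f hp h => ⟨h.1, sep_mono hp hp (by omega) (by omega) hp le_rfl h.1 hn h.2⟩)
  refine ⟨F, fun k e c q hc => ?_⟩
  obtain ⟨N, hN⟩ := hF (k + e + c + q)
  refine ⟨N + 1, fun n hn => ?_⟩
  have h := hN n (by omega)
  exact sep_mono (by omega) (by omega) hc (by omega) (by omega) le_rfl h.1 (by omega) h.2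

end Pool.Agent.TH706.SD
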